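import Mathlib
import Pool.Agent.H905R2.Tri6

/-!
# Free masas and algebras generated by several operators (helper382, for MP_5ed9ac_an)
-/

set_option autoImplicit false

open scoped InnerProductSpace ComplexConjugate
open Filter Topology

namespace H382Tri

open H905Tri

variable {H : Type*} [NormedAddCommGroup H] [InnerProductSpace ℂ H] [CompleteSpace H]
variable {F : ℕ → (H →L[ℂ] H)} {u : HilbertBasis ℤ ℂ H} {K : ℕ → ℤ}

/-- version of `adjoin_mem_TT` for a set of generators -/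
lemma adjoin_mem_TT' {𝒜 : Submodule ℂ (ℕ →₀ ℂ)} (hF0 : F 0 = 1) (he : Finsupp.single 0 1 ∈ 𝒜)
    {SA : Set (H →L[ℂ] H)}
    (hA : ∀ A ∈ SA, ∀ m ∈ 𝒜, ∃ m' ∈ 𝒜, LF F m' = A * LF F m) {x : H →L[ℂ] H}
    (hx : x ∈ Algebra.adjoin ℂ ((D u : Set (H →L[ℂ] H)) ∪ SA)) : x ∈ TT F u 𝒜 := by
  have key : ∀ t ∈ TT F u 𝒜, x * t ∈ TT F u 𝒜 := by
    refine Algebra.adjoin_induction ?_ ?_ ?_ ?_ hx
    · rintro y (hy | hy) t ht
      · exact TT_induction (C := fun t => y * t ∈ TT F u 𝒜) (D_mul_PA hy) (by simp)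
          (fun a b ha hb => by rw [mul_add]; exact Submodule.add_mem _ ha hb) ht
      · exact TT_induction (C := fun t => y * t ∈ TT F u 𝒜) (A_mul_PA hF0 he (hA y hy)) (by simp)
          (fun a b ha hb => by rw [mul_add]; exact Submodule.add_mem _ ha hb) ht
    · intro r t ht
      rw [Algebra.algebraMap_eq_smul_one, smul_mul_assoc, one_mul]
      exact Submodule.smul_mem _ _ ht
    · intro a b _ _ ha hb t ht
      rw [add_mul]; exact Submodule.add_mem _ (ha t ht) (hb t ht)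
    · intro a b _ _ ha hb t ht
      rw [mul_assoc]; exact ha _ (hb t ht)
  have h1 : (1 : H →L[ℂ] H) ∈ TT F u 𝒜 :=
    fst_mem_TT (n := 0) (x := (1, sym0 u 1)) (Submodule.subset_span ⟨1, (D u).one_mem, rfl⟩)
  have := key 1 h1
  rwa [mul_one] at this

lemma sum_snd_apply (f : ℕ →₀ PairT H) (𝒞 : Submodule ℂ (ℕ →₀ ℂ))
    (hf : ∀ n, f n ∈ PA F u 𝒞 n) (p : Path) :
    (f.sum fun _ xi => xi).2 p = (f p.2.length).2 p := by
  rw [Finsupp.sum, Prod.snd_sum, Finset.sum_apply]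
  rw [Finset.sum_eq_single p.2.length]
  · intro n _ hn
    exact PA_depth n (f n) (hf n) p (Ne.symm hn)
  · intro h
    rw [Finsupp.notMem_support_iff.1 h]; rfl

/-- The operators in both algebras are in the masa. -/
theorem mem_D_of_mem_both' (hG : Gen F u K) (hF0 : F 0 = 1)
    {𝒜 ℬ : Submodule ℂ (ℕ →₀ ℂ)} (heA : Finsupp.single 0 1 ∈ 𝒜) (heB : Finsupp.single 0 1 ∈ ℬ)
    {SA SB : Set (H →L[ℂ] H)}
    (hA : ∀ A ∈ SA, ∀ m ∈ 𝒜, ∃ m' ∈ 𝒜, LF F m' = A * LF F m)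
    (hB : ∀ B ∈ SB, ∀ m ∈ ℬ, ∃ m' ∈ ℬ, LF F m' = B * LF F m)
    (hAB : ∀ m, m ∈ 𝒜 → m ∈ ℬ → m 0 = 0 → m = 0)
    {x : H →L[ℂ] H}
    (hxA : x ∈ Algebra.adjoin ℂ ((D u : Set (H →L[ℂ] H)) ∪ SA))
    (hxB : x ∈ Algebra.adjoin ℂ ((D u : Set (H →L[ℂ] H)) ∪ SB)) : x ∈ D u := by
  classical
  obtain ⟨z, hz, hz1⟩ := adjoin_mem_TT' hF0 heA hA hxA
  obtain ⟨z', hz', hz1'⟩ := adjoin_mem_TT' hF0 heB hB hxB
  change z.1 = x at hz1
  change z'.1 = x at hz1'
  have hsym : z.2 = z'.2 := by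
    ext p
    have h1 := (PT_hasSym hG z hz).tendsto hG p
    have h2 := (PT_hasSym hG z' hz').tendsto hG p
    rw [hz1] at h1
    rw [hz1'] at h2
    exact tendsto_nhds_unique h1 h2
  obtain ⟨f, hf, hfz⟩ := (Submodule.mem_iSup_iff_exists_finsupp _ _).1
    (show z ∈ ⨆ n, PA F u 𝒜 n from hz)
  obtain ⟨g, hg, hgz⟩ := (Submodule.mem_iSup_iff_exists_finsupp _ _).1
    (show z' ∈ ⨆ n, PA F u ℬ n from hz')
  have hfg : ∀ n, (f n).2 = (g n).2 := by
    intro n
    ext p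
    by_cases hp : p.2.length = n
    · have h1 := sum_snd_apply f 𝒜 hf p
      have h2 := sum_snd_apply g ℬ hg p
      rw [hfz, hp] at h1
      rw [hgz, hp] at h2
      rw [← h1, ← h2, hsym]
    · rw [PA_depth n (f n) (hf n) p hp, PA_depth n (g n) (hg n) p hp]
  have hzero : ∀ n, (f (n + 1)).2 = 0 := by
    intro n
    ext ⟨w, L⟩
    cases L with
    | nil => exact PA_depth (n + 1) (f (n + 1)) (hf (n + 1)) (w, []) (by simp)
    | cons y L =>
      obtain ⟨j, w'⟩ := y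
      obtain ⟨m, hm, hm0, h⟩ := PA_letter n (f (n + 1)) (hf (n + 1)) w w' L
      obtain ⟨m', hm', hm0', h'⟩ := PA_letter n (g (n + 1)) (hg (n + 1)) w w' L
      have hmm : m = m' := by
        ext i
        rw [← h, ← h', hfg]
      have := hAB m hm (hmm ▸ hm') hm0
      rw [h, this]; rfl
  have hone : ∀ n, (f (n + 1)).1 = 0 := fun n => PA_inj (n + 1) _ (hf (n + 1)) (hzero n)
  have hx : x = (f 0).1 := by
    rw [← hz1, ← hfz, Finsupp.sum, Prod.fst_sum]
    rw [Finset.sum_eq_single 0]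
    · intro n _ hn
      obtain ⟨m, rfl⟩ := Nat.exists_eq_succ_of_ne_zero hn
      exact hone m
    · intro h
      rw [Finsupp.notMem_support_iff.1 h]; rfl
  rw [hx]
  exact (PA_zero_fst (hf 0)).1

/-- A letter without constant term which lies in the masa vanishes. -/
theorem letter_mem_D (hG : Gen F u K) {m : ℕ →₀ ℂ} (hm0 : m 0 = 0) (hm : LF F m ∈ D u) :
    LF F m = 0 := by
  classical
  set 𝒜 : Submodule ℂ (ℕ →₀ ℂ) := ⊤ with h𝒜
  let z : PairT H := (LF F m, sym0 u (LF F m))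
  let z' : PairT H := stepPair F u 1 m (1, sym0 u 1)
  have hz : z ∈ PA F u 𝒜 0 := Submodule.subset_span ⟨_, hm, rfl⟩
  have hz' : z' ∈ PA F u 𝒜 1 := by
    apply Submodule.subset_span
    exact ⟨1, (D u).one_mem, m, trivial, hm0, (1, sym0 u 1),
      Submodule.subset_span ⟨1, (D u).one_mem, rfl⟩, rfl⟩
  have h1 : z'.1 = LF F m := by simp [z', stepPair]
  have hsym : z.2 = z'.2 := by
    ext p
    have a1 := (PT_hasSym hG z (Submodule.mem_iSup_of_mem 0 hz)).tendsto hG p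
    have a2 := (PT_hasSym hG z' (Submodule.mem_iSup_of_mem 1 hz')).tendsto hG p
    rw [h1] at a2
    exact tendsto_nhds_unique a1 a2
  have hzero : z'.2 = 0 := by
    ext p
    by_cases hp : p.2.length = 1
    · rw [← hsym]
      exact PA_depth 0 z hz p (by omega)
    · exact PA_depth 1 z' hz' p hp
  rw [← h1]
  exact PA_inj 1 z' hz' hzero

end H382Tri
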