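import Mathlib
import Pool.Agent.H905R2.Tri3
import Pool.Agent.H382R3.TriGen

/-!
# A sequence of operators converging to a symmetry (helper382, for MP_5ed9ac_an)
-/

set_option autoImplicit false

open scoped InnerProductSpace ComplexConjugate
open Filter Topology

namespace H382Tri

open H905Tri

variable {H : Type*} [NormedAddCommGroup H] [InnerProductSpace ℂ H] [CompleteSpace H]

/-- parity sign -/
noncomputable def sg (n : ℤ) : ℂ := if Even n then 1 else -1

lemma sg_norm (n : ℤ) : ‖sg n‖ = 1 := by unfold sg; split_ifs <;> simp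

lemma sg_mul_self (n : ℤ) : sg n * sg n = 1 := by unfold sg; split_ifs <;> simp

lemma sg_conj (n : ℤ) : conj (sg n) = sg n := by unfold sg; split_ifs <;> simp

lemma sg_add (n m : ℤ) : sg (n + m) = sg n * sg m := by
  unfold sg
  by_cases hn : Even n <;> by_cases hm : Even m <;> simp [hn, hm, Int.even_add]

noncomputable def signBasis (b : HilbertBasis ℤ ℂ H) : HilbertBasis ℤ ℂ H :=
  HilbertBasis.mk (v := fun n => sg n • b n)
    (by
      rw [orthonormal_iff_ite]
      intro i j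
      rw [inner_smul_left, inner_smul_right, orthonormal_iff_ite.1 b.orthonormal, sg_conj]
      by_cases h : i = j
      · subst h; rw [if_pos rfl, mul_one, sg_mul_self]
      · simp [h])
    (by
      rw [← b.dense_span]
      apply Submodule.topologicalClosure_mono
      rw [Submodule.span_le]
      rintro _ ⟨n, rfl⟩
      have h1 : (b n : H) = sg n • (sg n • b n) := by rw [smul_smul, sg_mul_self, one_smul]
      rw [h1]
      exact Submodule.smul_mem _ _ (Submodule.subset_span ⟨n, rfl⟩))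

lemma signBasis_apply (b : HilbertBasis ℤ ℂ H) (n : ℤ) : signBasis b n = sg n • b n := by
  simp [signBasis]

noncomputable def Siso (b : HilbertBasis ℤ ℂ H) : H ≃ₗᵢ[ℂ] H :=
  b.repr.trans (signBasis b).repr.symm

/-- the symmetry `b n ↦ (-1)^n b n` -/
noncomputable def S (b : HilbertBasis ℤ ℂ H) : H →L[ℂ] H :=
  (Siso b).toContinuousLinearEquiv.toContinuousLinearMap

lemma S_apply (b : HilbertBasis ℤ ℂ H) (n : ℤ) : S b (b n) = sg n • b n := by
  have : S b (b n) = (signBasis b).repr.symm (b.repr (b n)) := rfl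
  rw [this, HilbertBasis.repr_self, HilbertBasis.repr_symm_single, signBasis_apply]

lemma S_mul_S (b : HilbertBasis ℤ ℂ H) : S b * S b = 1 := by
  apply ext_basis b
  intro n
  show S b (S b (b n)) = b n
  rw [S_apply, map_smul, S_apply, smul_smul, sg_mul_self, one_smul]

lemma star_S (b : HilbertBasis ℤ ℂ H) : star (S b) = S b := by
  apply ext_basis b
  intro n
  apply inner_ext b
  intro m
  rw [ContinuousLinearMap.star_eq_adjoint, ContinuousLinearMap.adjoint_inner_right, S_apply,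
    S_apply, inner_smul_left, inner_smul_right, sg_conj, orthonormal_iff_ite.1 b.orthonormal]
  by_cases h : m = n
  · subst h; rfl
  · simp [h]

lemma S_W (b : HilbertBasis ℤ ℂ H) (k : ℤ) : S b * W b k = sg k • (W b k * S b) := by
  apply ext_basis b
  intro n
  show S b (W b k (b n)) = sg k • (W b k (S b (b n)))
  rw [W_apply, S_apply, S_apply, map_smul, W_apply, smul_smul, sg_add, mul_comm]

/-- the projection onto the odd basis vectors -/
noncomputable def P (b : HilbertBasis ℤ ℂ H) : H →L[ℂ] H := (1 / 2 : ℂ) • (1 - S b)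

lemma P_odd (b : HilbertBasis ℤ ℂ H) {n : ℤ} (hn : ¬ Even n) : P b (b n) = b n := by
  show (1 / 2 : ℂ) • (b n - S b (b n)) = b n
  rw [S_apply, sg, if_neg hn, neg_smul, one_smul, sub_neg_eq_add, ← two_smul ℂ, smul_smul]
  norm_num

lemma P_even (b : HilbertBasis ℤ ℂ H) {n : ℤ} (hn : Even n) : P b (b n) = 0 := by
  show (1 / 2 : ℂ) • (b n - S b (b n)) = 0
  rw [S_apply, sg, if_pos hn, one_smul, sub_self, smul_zero]

noncomputable def U (b : HilbertBasis ℤ ℂ H) (n : ℕ) : H →L[ℂ] H := W b (2 * n + 1) * P b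

lemma odd_idx (n : ℕ) : ¬ Even ((2 : ℤ) * n + 1) := by
  rw [Int.not_even_iff_odd]; exact ⟨n, rfl⟩

lemma U_odd (b : HilbertBasis ℤ ℂ H) (n : ℕ) {m : ℤ} (hm : ¬ Even m) :
    U b n (b m) = b (m + (2 * n + 1)) := by
  show W b _ (P b (b m)) = _
  rw [P_odd b hm, W_apply]

lemma U_even (b : HilbertBasis ℤ ℂ H) (n : ℕ) {m : ℤ} (hm : Even m) : U b n (b m) = 0 := by
  show W b _ (P b (b m)) = _
  rw [P_even b hm, map_zero]

lemma S_mul_U (b : HilbertBasis ℤ ℂ H) (n : ℕ) : S b * U b n = U b n := by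
  apply ext_basis b
  intro m
  show S b (U b n (b m)) = U b n (b m)
  by_cases hm : Even m
  · rw [U_even b n hm, map_zero]
  · rw [U_odd b n hm, S_apply, sg, if_pos, one_smul]
    rw [Int.not_even_iff_odd] at hm
    exact hm.add_odd ⟨n, rfl⟩

lemma U_mul_S (b : HilbertBasis ℤ ℂ H) (n : ℕ) : U b n * S b = - U b n := by
  apply ext_basis b
  intro m
  show U b n (S b (b m)) = - U b n (b m)
  rw [S_apply, map_smul]
  by_cases hm : Even m
  · rw [U_even b n hm, smul_zero, neg_zero]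
  · rw [sg, if_neg hm, neg_smul, one_smul]

lemma U_mul_U (b : HilbertBasis ℤ ℂ H) (n m : ℕ) : U b n * U b m = 0 := by
  apply ext_basis b
  intro k
  show U b n (U b m (b k)) = 0
  by_cases hk : Even k
  · rw [U_even b m hk, map_zero]
  · rw [U_odd b m hk, U_even]
    rw [Int.not_even_iff_odd] at hk
    exact hk.add_odd ⟨m, rfl⟩

/-- the weights -/
noncomputable def ep (n : ℕ) : ℂ := 1 / ((n : ℂ) + 1)

lemma ep_ne (n : ℕ) : ep n ≠ 0 := by
  unfold ep
  exact one_div_ne_zero (by exact_mod_cast Nat.succ_ne_zero n)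

noncomputable def R (b : HilbertBasis ℤ ℂ H) (n : ℕ) : H →L[ℂ] H := S b + ep n • U b n

lemma R_mul_R (b : HilbertBasis ℤ ℂ H) (n m : ℕ) : R b n * R b m = 1 + R b m - R b n := by
  unfold R
  simp only [add_mul, mul_add, smul_mul_assoc, mul_smul_comm, S_mul_S, S_mul_U, U_mul_S, U_mul_U]
  simp only [smul_neg, smul_zero]
  abel_nf

lemma R_tendsto (b : HilbertBasis ℤ ℂ H) : Tendsto (R b) atTop (𝓝 (S b)) := by
  have hU : ∀ n, ‖U b n‖ ≤ ‖P b‖ := by
    intro n
    apply ContinuousLinearMap.opNorm_le_bound _ (norm_nonneg _)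
    intro x
    show ‖W b _ (P b x)‖ ≤ _
    rw [W_norm]
    exact (P b).le_opNorm x
  have h1 : Tendsto (fun n => ep n • U b n) atTop (𝓝 0) := by
    apply squeeze_zero_norm (a := fun n : ℕ => (1 / ((n : ℝ) + 1)) * ‖P b‖)
    · intro n
      rw [norm_smul]
      apply mul_le_mul _ (hU n) (norm_nonneg _) (by positivity)
      unfold ep
      rw [norm_div, norm_one]
      have : ‖(n : ℂ) + 1‖ = (n : ℝ) + 1 := by
        have h : ((n : ℂ) + 1) = ((n + 1 : ℕ) : ℂ) := by push_cast; rfl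
        rw [h, Complex.norm_natCast]; push_cast; rfl
      rw [this]
    · have := tendsto_one_div_add_atTop_nhds_zero_nat (𝕜 := ℝ)
      simpa using this.mul_const ‖P b‖
  have h2 := (tendsto_const_nhds (x := S b)).add h1
  rw [add_zero] at h2
  exact h2

/-! ### the letters -/

/-- the letters `1, S, U 0, star U 0, U 1, star U 1, ...` -/
noncomputable def Lt (b : HilbertBasis ℤ ℂ H) (i : ℕ) : H →L[ℂ] H :=
  if i = 0 then 1 else if i = 1 then S b else
    if i % 2 = 0 then U b (i / 2 - 1) else star (U b (i / 2 - 1))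

lemma Lt_zero (b : HilbertBasis ℤ ℂ H) : Lt b 0 = 1 := by simp [Lt]

lemma Lt_one (b : HilbertBasis ℤ ℂ H) : Lt b 1 = S b := by simp [Lt]

lemma Lt_even (b : HilbertBasis ℤ ℂ H) (n : ℕ) : Lt b (2 * n + 2) = U b n := by
  have h1 : (2 * n + 2) % 2 = 0 := by omega
  have h2 : (2 * n + 2) / 2 - 1 = n := by omega
  have h3 : 2 * n + 2 ≠ 0 := by omega
  have h4 : 2 * n + 2 ≠ 1 := by omega
  unfold Lt
  rw [if_neg h3, if_neg h4, if_pos h1, h2]

lemma Lt_odd (b : HilbertBasis ℤ ℂ H) (n : ℕ) : Lt b (2 * n + 3) = star (U b n) := by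
  have h1 : ¬ (2 * n + 3) % 2 = 0 := by omega
  have h2 : (2 * n + 3) / 2 - 1 = n := by omega
  have h3 : 2 * n + 3 ≠ 0 := by omega
  have h4 : 2 * n + 3 ≠ 1 := by omega
  unfold Lt
  rw [if_neg h3, if_neg h4, if_neg h1, h2]

lemma nat_cases (i : ℕ) : i = 0 ∨ i = 1 ∨ (∃ n, i = 2 * n + 2) ∨ ∃ n, i = 2 * n + 3 := by
  rcases Nat.even_or_odd' i with ⟨k, hk | hk⟩
  · rcases k with _ | k
    · left; omega
    · right; right; left; exact ⟨k, by omega⟩
  · rcases k with _ | k
    · right; left; omega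
    · right; right; right; exact ⟨k, by omega⟩

noncomputable def Lm (b : HilbertBasis ℤ ℂ H) : (ℕ →₀ ℂ) →ₗ[ℂ] (H →L[ℂ] H) :=
  Finsupp.linearCombination ℂ (Lt b)

/-- matrix coefficient functional -/
noncomputable def mc (b : HilbertBasis ℤ ℂ H) (i j : ℤ) : (H →L[ℂ] H) →ₗ[ℂ] ℂ where
  toFun T := ⟪b i, T (b j)⟫_ℂ
  map_add' T T' := by rw [add_apply, inner_add_right]
  map_smul' c T := by rw [smul_apply, inner_smul_right]; rfl

omit [CompleteSpace H] in
lemma mc_apply (b : HilbertBasis ℤ ℂ H) (i j : ℤ) (T : H →L[ℂ] H) :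
    mc b i j T = ⟪b i, T (b j)⟫_ℂ := rfl

omit [CompleteSpace H] in
lemma b_ite (b : HilbertBasis ℤ ℂ H) (i j : ℤ) : ⟪b i, b j⟫_ℂ = if i = j then 1 else 0 :=
  orthonormal_iff_ite.1 b.orthonormal i j

lemma mc_one (b : HilbertBasis ℤ ℂ H) (i j : ℤ) : mc b i j 1 = if i = j then 1 else 0 := by
  rw [mc_apply]; exact b_ite b i j

lemma mc_S (b : HilbertBasis ℤ ℂ H) (i j : ℤ) : mc b i j (S b) = if i = j then sg j else 0 := by
  rw [mc_apply, S_apply, inner_smul_right, b_ite]; split_ifs <;> simp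

lemma mc_U (b : HilbertBasis ℤ ℂ H) (i j : ℤ) (n : ℕ) :
    mc b i j (U b n) = if ¬ Even j ∧ i = j + (2 * n + 1) then 1 else 0 := by
  rw [mc_apply]
  by_cases hj : Even j
  · rw [U_even b n hj, inner_zero_right, if_neg (by tauto)]
  · rw [U_odd b n hj, b_ite]
    by_cases h : i = j + (2 * n + 1) <;> simp [h, hj]

lemma mc_star (b : HilbertBasis ℤ ℂ H) (i j : ℤ) (T : H →L[ℂ] H) :
    mc b i j (star T) = conj (mc b j i T) := by
  rw [mc_apply, mc_apply, ContinuousLinearMap.star_eq_adjoint,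
    ContinuousLinearMap.adjoint_inner_right, inner_conj_symm]

lemma mc_starU (b : HilbertBasis ℤ ℂ H) (i j : ℤ) (n : ℕ) :
    mc b i j (star (U b n)) = if ¬ Even i ∧ j = i + (2 * n + 1) then 1 else 0 := by
  rw [mc_star, mc_U]
  split_ifs <;> simp

lemma dual_eval (b : HilbertBasis ℤ ℂ H) (ψ : (H →L[ℂ] H) →ₗ[ℂ] ℂ) (i0 : ℕ)
    (h : ∀ i, ψ (Lt b i) = if i = i0 then 1 else 0) (e : ℕ →₀ ℂ) : ψ (Lm b e) = e i0 := by
  classical
  unfold Lm
  rw [Finsupp.linearCombination_apply, Finsupp.sum, map_sum]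
  simp only [map_smul, h, smul_eq_mul]
  by_cases hi : i0 ∈ e.support
  · rw [Finset.sum_eq_single i0]
    · simp
    · intro j _ hj; simp [hj]
    · intro h'; exact absurd hi h'
  · rw [Finset.sum_eq_zero]
    · exact (Finsupp.notMem_support_iff.1 hi).symm
    · intro j hj
      have : j ≠ i0 := fun h' => hi (h' ▸ hj)
      simp [this]

/-- the coefficient of `U n` -/
lemma coefU (b : HilbertBasis ℤ ℂ H) (n : ℕ) (i : ℕ) :
    mc b (2 * n + 2) 1 (Lt b i) = if i = 2 * n + 2 then 1 else 0 := by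
  rcases nat_cases i with rfl | rfl | ⟨k, rfl⟩ | ⟨k, rfl⟩
  · rw [Lt_zero, mc_one, if_neg (by omega), if_neg (by omega)]
  · rw [Lt_one, mc_S, if_neg (by omega), if_neg (by omega)]
  · rw [Lt_even, mc_U]
    by_cases h : k = n
    · subst h
      have h1 : ¬ Even (1 : ℤ) ∧ (2 * (k : ℤ) + 2) = 1 + (2 * k + 1) := ⟨by decide, by ring⟩
      rw [if_pos h1, if_pos rfl]
    · have h1 : ¬ (¬ Even (1 : ℤ) ∧ (2 * (n : ℤ) + 2) = 1 + (2 * k + 1)) := by
        intro h2
        have h3 := h2.2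
        omega
      have h4 : ¬ (2 * k + 2 = 2 * n + 2) := by omega
      rw [if_neg h1, if_neg h4]
  · rw [Lt_odd, mc_starU, if_neg, if_neg (by omega)]
    rintro ⟨h1, _⟩
    apply h1
    exact ⟨n + 1, by ring⟩

/-- the coefficient of `star (U n)` -/
lemma coefUs (b : HilbertBasis ℤ ℂ H) (n : ℕ) (i : ℕ) :
    mc b (-(2 * n + 1)) 0 (Lt b i) = if i = 2 * n + 3 then 1 else 0 := by
  rcases nat_cases i with rfl | rfl | ⟨k, rfl⟩ | ⟨k, rfl⟩
  · rw [Lt_zero, mc_one, if_neg (by omega), if_neg (by omega)]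
  · rw [Lt_one, mc_S, if_neg (by omega), if_neg (by omega)]
  · rw [Lt_even, mc_U, if_neg, if_neg (by omega)]
    rintro ⟨h1, _⟩
    exact h1 (by decide)
  · rw [Lt_odd, mc_starU]
    by_cases h : k = n
    · subst h
      have h0 : ¬ Even (-(2 * (k : ℤ) + 1)) := by
        rw [Int.not_even_iff_odd]
        exact ⟨-(k : ℤ) - 1, by ring⟩
      have h1 : ¬ Even (-(2 * (k : ℤ) + 1)) ∧ (0 : ℤ) = -(2 * (k : ℤ) + 1) + (2 * k + 1) :=
        ⟨h0, by ring⟩
      rw [if_pos h1, if_pos rfl]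
    · have h1 : ¬ (¬ Even (-(2 * (n : ℤ) + 1)) ∧
          (0 : ℤ) = -(2 * (n : ℤ) + 1) + (2 * k + 1)) := by
        intro h2
        have h3 := h2.2
        omega
      have h4 : ¬ (2 * k + 3 = 2 * n + 3) := by omega
      rw [if_neg h1, if_neg h4]

lemma coef0 (b : HilbertBasis ℤ ℂ H) (i : ℕ) :
    mc b 0 0 (Lt b i) = if i = 0 ∨ i = 1 then 1 else 0 := by
  rcases nat_cases i with rfl | rfl | ⟨k, rfl⟩ | ⟨k, rfl⟩
  · rw [Lt_zero, mc_one]; simp
  · rw [Lt_one, mc_S]; simp [sg]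
  · rw [Lt_even, mc_U, if_neg, if_neg (by omega)]
    rintro ⟨h1, _⟩
    exact h1 (by decide)
  · rw [Lt_odd, mc_starU, if_neg, if_neg (by omega)]
    rintro ⟨h1, _⟩
    exact h1 (by decide)

lemma coef1 (b : HilbertBasis ℤ ℂ H) (i : ℕ) :
    mc b 1 1 (Lt b i) = if i = 0 then 1 else if i = 1 then -1 else 0 := by
  rcases nat_cases i with rfl | rfl | ⟨k, rfl⟩ | ⟨k, rfl⟩
  · rw [Lt_zero, mc_one]; simp
  · rw [Lt_one, mc_S]; simp [sg]
  · rw [Lt_even, mc_U, if_neg (by omega), if_neg (by omega), if_neg (by omega)]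
  · rw [Lt_odd, mc_starU, if_neg (by omega), if_neg (by omega), if_neg (by omega)]

lemma Lm_inj (b : HilbertBasis ℤ ℂ H) (e : ℕ →₀ ℂ) (h : Lm b e = 0) : e = 0 := by
  ext i
  rw [Finsupp.coe_zero, Pi.zero_apply]
  rcases nat_cases i with rfl | rfl | ⟨k, rfl⟩ | ⟨k, rfl⟩
  · have := dual_eval b ((1 / 2 : ℂ) • (mc b 0 0 + mc b 1 1)) 0 (by
      intro i
      simp only [LinearMap.smul_apply, LinearMap.add_apply, coef0, coef1]
      by_cases h0 : i = 0
      · simp [h0]; norm_num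
      · by_cases h1 : i = 1
        · simp [h1]
        · simp [h0, h1]) e
    rw [← this, h, map_zero]
  · have := dual_eval b ((1 / 2 : ℂ) • (mc b 0 0 - mc b 1 1)) 1 (by
      intro i
      simp only [LinearMap.smul_apply, LinearMap.sub_apply, coef0, coef1]
      by_cases h0 : i = 0
      · simp [h0]
      · by_cases h1 : i = 1
        · simp [h1]; norm_num
        · simp [h0, h1]) e
    rw [← this, h, map_zero]
  · rw [← dual_eval b _ _ (coefU b k) e, h, map_zero]
  · rw [← dual_eval b _ _ (coefUs b k) e, h, map_zero]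

/-! ### non-compactness -/

lemma not_compact_of_comm (b : HilbertBasis ℤ ℂ H) {T : H →L[ℂ] H}
    (hT : ∀ k : ℤ, T * W b (2 * k) = W b (2 * k) * T) (hT0 : T ≠ 0) : ¬ IsCompactOperator T := by
  intro hK
  have hm : ∃ m, T (b m) ≠ 0 := by
    by_contra hcon
    push Not at hcon
    apply hT0
    apply ext_basis b
    intro n
    rw [hcon n]; simp
  obtain ⟨m, hm⟩ := hm
  set x := T (b m) with hx
  let y : ℕ → H := fun k => T (b (m + 2 * k))
  have hy : ∀ k : ℕ, y k = W b (2 * k) x := by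
    intro k
    have := congrArg (fun A : H →L[ℂ] H => A (b m)) (hT k)
    change T (W b (2 * k) (b m)) = W b (2 * k) (T (b m)) at this
    rw [W_apply] at this
    exact this
  have hcpt : IsCompact (closure (T '' Metric.closedBall 0 1)) :=
    IsCompactOperator.isCompact_closure_image_closedBall (f := (T : H →ₗ[ℂ] H)) hK 1
  have hmem : ∀ k, y k ∈ closure (T '' Metric.closedBall 0 1) := by
    intro k
    apply subset_closure
    refine ⟨b (m + 2 * k), ?_, rfl⟩
    rw [mem_closedBall_zero_iff, b.orthonormal.1]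
  obtain ⟨z, -, φ, hφ, hz⟩ := hcpt.tendsto_subseq hmem
  have hz0 : z = 0 := by
    apply inner_ext b
    intro j
    have h1 : Tendsto (fun k => ⟪b j, y (φ k)⟫_ℂ) atTop (𝓝 ⟪b j, z⟫_ℂ) :=
      Filter.Tendsto.inner tendsto_const_nhds hz
    have h2 : Tendsto (fun i : ℤ => ⟪b i, x⟫_ℂ) cofinite (𝓝 0) := by
      have h3 : Summable (fun i => ‖⟪b i, x⟫_ℂ‖ ^ 2) := b.orthonormal.inner_products_summable x
      have h4 := h3.tendsto_cofinite_zero
      rw [tendsto_zero_iff_norm_tendsto_zero]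
      have h5 := h4.sqrt
      simpa using h5
    have h6 : Function.Injective (fun k : ℕ => j - 2 * (φ k : ℤ)) := by
      intro k l hkl
      simp only at hkl
      apply hφ.injective
      omega
    have h7 := h2.comp h6.tendsto_cofinite
    rw [Nat.cofinite_eq_atTop] at h7
    have h8 : Tendsto (fun k => ⟪b j, y (φ k)⟫_ℂ) atTop (𝓝 0) := by
      refine h7.congr ?_
      intro k
      simp only [Function.comp]
      rw [hy, inner_W]
    rw [inner_zero_right]
    exact tendsto_nhds_unique h1 h8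
  have h9 : Tendsto (fun k => ‖y (φ k)‖) atTop (𝓝 ‖z‖) := hz.norm
  have h10 : Tendsto (fun k => ‖y (φ k)‖) atTop (𝓝 ‖x‖) := by
    refine tendsto_const_nhds.congr ?_
    intro k
    rw [hy, W_norm]
  have h11 := tendsto_nhds_unique h9 h10
  rw [hz0, norm_zero] at h11
  exact hm (norm_eq_zero.1 h11.symm)

lemma sg_two (k : ℤ) : sg (2 * k) = 1 := by
  unfold sg; rw [if_pos ⟨k, by ring⟩]

lemma U_comm (b : HilbertBasis ℤ ℂ H) (n : ℕ) (k : ℤ) :
    U b n * W b (2 * k) = W b (2 * k) * U b n := by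
  have h1 : P b * W b (2 * k) = W b (2 * k) * P b := by
    unfold P
    rw [smul_mul_assoc, mul_smul_comm, sub_mul, mul_sub, S_W, sg_two, one_smul, one_mul, mul_one]
  unfold U
  rw [mul_assoc, h1, ← mul_assoc, ← mul_assoc, W_comp, W_comp, add_comm]

lemma Lt_comm (b : HilbertBasis ℤ ℂ H) (i : ℕ) (k : ℤ) :
    Lt b i * W b (2 * k) = W b (2 * k) * Lt b i := by
  rcases nat_cases i with rfl | rfl | ⟨n, rfl⟩ | ⟨n, rfl⟩
  · rw [Lt_zero, one_mul, mul_one]
  · rw [Lt_one, S_W, sg_two, one_smul]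
  · rw [Lt_even]; exact U_comm b n k
  · rw [Lt_odd]
    have h1 := congrArg star (U_comm b n (-k))
    rw [star_mul, star_mul, star_W] at h1
    have h2 : -(2 * -k) = 2 * k := by ring
    rw [h2] at h1
    exact h1.symm

lemma Lm_comm (b : HilbertBasis ℤ ℂ H) (e : ℕ →₀ ℂ) (k : ℤ) :
    Lm b e * W b (2 * k) = W b (2 * k) * Lm b e := by
  unfold Lm
  rw [Finsupp.linearCombination_apply, Finsupp.sum, Finset.sum_mul, Finset.mul_sum]
  apply Finset.sum_congr rfl
  intro i _
  rw [smul_mul_assoc, mul_smul_comm, Lt_comm]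

lemma Lm_not_compact (b : HilbertBasis ℤ ℂ H) (e : ℕ →₀ ℂ) (he : e ≠ 0) :
    ¬ IsCompactOperator (Lm b e) :=
  not_compact_of_comm b (Lm_comm b e) (fun h => he (Lm_inj b e h))

end H382Tri
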