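import Mathlib
import Pool.Agent.H382R3.TriOps

/-!
# A triangular algebra whose norm closure is not triangular (helper382, for MP_5ed9ac_an)
-/

set_option autoImplicit false

open scoped InnerProductSpace ComplexConjugate
open Filter Topology

namespace H382Tri

open H905Tri

section tri
variable {H : Type*} [NormedAddCommGroup H] [InnerProductSpace ℂ H] [CompleteSpace H]

/-- the diagonal of an algebra of operators -/
def diag (T : Subalgebra ℂ (H →L[ℂ] H)) : Set (H →L[ℂ] H) := {x | x ∈ T ∧ star x ∈ T}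

/-- Zorn: a triangular algebra lies in a maximal one. -/
lemma exists_maximal (T0 : Subalgebra ℂ (H →L[ℂ] H))
    (h0 : Set.centralizer (diag T0) = diag T0) :
    ∃ T : Subalgebra ℂ (H →L[ℂ] H), T0 ≤ T ∧ diag T = diag T0 ∧
      ∀ T' : Subalgebra ℂ (H →L[ℂ] H), T ≤ T' → Set.centralizer (diag T') = diag T' → T' = T := by
  have hmono : ∀ {A B : Subalgebra ℂ (H →L[ℂ] H)}, A ≤ B → diag A ⊆ diag B :=
    fun h x hx => ⟨h hx.1, h hx.2⟩
  obtain ⟨T, hT0, hT⟩ := zorn_le_nonempty₀ {T : Subalgebra ℂ (H →L[ℂ] H) | diag T ⊆ diag T0} (by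
    intro c hc hchain y hy
    refine ⟨sSup c, ?_, fun z hz => le_sSup hz⟩
    have hmem : ∀ x, x ∈ sSup c → ∃ T ∈ c, x ∈ T := by
      intro x hx
      have hne : c.Nonempty := ⟨y, hy⟩
      have h1 : (((sSup c : Subalgebra ℂ (H →L[ℂ] H))) : Set (H →L[ℂ] H)) =
          ⋃ T ∈ c, (T : Set (H →L[ℂ] H)) := by
        have hne' : Nonempty c := hne.to_subtype
        rw [sSup_eq_iSup', Subalgebra.coe_iSup_of_directed]
        · simp
        · exact hchain.directedOn.directed_val
      have h2 : x ∈ (((sSup c : Subalgebra ℂ (H →L[ℂ] H))) : Set (H →L[ℂ] H)) := hx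
      rw [h1] at h2
      simpa using h2
    rintro x ⟨hx1, hx2⟩
    obtain ⟨A, hA, hxA⟩ := hmem x hx1
    obtain ⟨B, hB, hxB⟩ := hmem _ hx2
    rcases hchain.total hA hB with h | h
    · exact hc hB ⟨h hxA, hxB⟩
    · exact hc hA ⟨hxA, h hxB⟩) T0 (Set.Subset.refl _)
  have hd : diag T = diag T0 := Set.Subset.antisymm hT.1 (hmono hT0)
  refine ⟨T, hT0, hd, ?_⟩
  intro T' hTT' hT'
  refine le_antisymm (hT.2 ?_ hTT') hTT'
  show diag T' ⊆ diag T0
  have h1 : diag T0 ⊆ diag T' := by rw [← hd]; exact hmono hTT'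
  calc diag T' = Set.centralizer (diag T') := hT'.symm
    _ ⊆ Set.centralizer (diag T0) := Set.centralizer_subset h1
    _ = diag T0 := h0

end tri

variable {H : Type*} [NormedAddCommGroup H] [InnerProductSpace ℂ H] [CompleteSpace H]

/-- elements of the span of `1` and a sequence -/
lemma mem_span_one (r : ℕ → (H →L[ℂ] H)) {x : H →L[ℂ] H}
    (hx : x ∈ Submodule.span ℂ (insert 1 (Set.range r))) :
    ∃ (a : ℂ) (β : ℕ →₀ ℂ), x = a • 1 + Finsupp.linearCombination ℂ r β := by
  obtain ⟨a, z, hz, rfl⟩ := Submodule.mem_span_insert.1 hx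
  obtain ⟨β, rfl⟩ := (Finsupp.mem_span_range_iff_exists_finsupp).1 hz
  exact ⟨a, β, rfl⟩

/-- a functional which detects the `n`-th coefficient -/
lemma detect (r : ℕ → (H →L[ℂ] H)) (ψ : (H →L[ℂ] H) →ₗ[ℂ] ℂ) (n : ℕ) (c : ℂ)
    (h : ∀ i, ψ (r i) = if i = n then c else 0) (h1 : ψ 1 = 0) (a : ℂ) (β : ℕ →₀ ℂ) :
    ψ (a • 1 + Finsupp.linearCombination ℂ r β) = β n * c := by
  classical
  rw [map_add, map_smul, h1, smul_zero, zero_add, Finsupp.linearCombination_apply, Finsupp.sum,
    map_sum]
  simp only [map_smul, h, smul_eq_mul]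
  by_cases hi : n ∈ β.support
  · rw [Finset.sum_eq_single n]
    · simp
    · intro j _ hj; simp [hj]
    · intro h'; exact absurd hi h'
  · rw [Finset.sum_eq_zero]
    · rw [Finsupp.notMem_support_iff.1 hi, zero_mul]
    · intro j hj
      have : j ≠ n := fun h' => hi (h' ▸ hj)
      simp [this]

lemma R_mem_range (b : HilbertBasis ℤ ℂ H) (n : ℕ) : R b n ∈ LinearMap.range (Lm b) := by
  refine ⟨Finsupp.single 1 1 + Finsupp.single (2 * n + 2) (ep n), ?_⟩
  unfold Lm
  rw [map_add, Finsupp.linearCombination_single, Finsupp.linearCombination_single, Lt_one, Lt_even,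
    one_smul]
  rfl

lemma starR_mem_range (b : HilbertBasis ℤ ℂ H) (n : ℕ) :
    star (R b n) ∈ LinearMap.range (Lm b) := by
  refine ⟨Finsupp.single 1 1 + Finsupp.single (2 * n + 3) (conj (ep n)), ?_⟩
  unfold Lm
  rw [map_add, Finsupp.linearCombination_single, Finsupp.linearCombination_single, Lt_one, Lt_odd,
    one_smul]
  unfold R
  rw [star_add, star_smul, star_S]
  rfl

lemma span_closed (r : ℕ → (H →L[ℂ] H)) (s : Set (H →L[ℂ] H)) (hs : s = Set.range r)
    (hr : ∀ n m, r n * r m ∈ Submodule.span ℂ (insert 1 (Set.range r))) {A x : H →L[ℂ] H}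
    (hA : A ∈ s) (hx : x ∈ Submodule.span ℂ (insert 1 (Set.range r))) :
    A * x ∈ Submodule.span ℂ (insert 1 (Set.range r)) := by
  subst hs
  obtain ⟨n, rfl⟩ := hA
  refine Submodule.span_induction ?_ ?_ ?_ ?_ hx
  · rintro y (rfl | ⟨m, rfl⟩)
    · rw [mul_one]; exact Submodule.subset_span (Or.inr ⟨n, rfl⟩)
    · exact hr n m
  · rw [mul_zero]; exact Submodule.zero_mem _
  · intro y z _ _ h1 h2
    rw [mul_add]; exact Submodule.add_mem _ h1 h2
  · intro c y _ h
    rw [mul_smul_comm]; exact Submodule.smul_mem _ _ h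

/-- There is a triangular algebra whose norm closure contains a self-adjoint operator outside of
its diagonal. -/
theorem exists_tri [TopologicalSpace.SeparableSpace H] (b : HilbertBasis ℤ ℂ H) :
    ∃ T : Subalgebra ℂ (H →L[ℂ] H), Set.centralizer (diag T) = diag T ∧
      (∀ n, R b n ∈ T) ∧ S b ∉ diag T := by
  obtain ⟨F, hF0', hFl, hFs, hFar⟩ := exists_letters (Lm_not_compact b)
  have hF0 : F 0 = 1 := by
    rw [hF0']
    unfold Lm
    rw [Finsupp.linearCombination_single, one_smul, Lt_zero]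
  obtain ⟨u, hu⟩ := exists_generic (F := F) hFar hF0
  choose K hK1 hK2 using hu
  have hG : Gen F u K := ⟨hK1, hK2⟩
  have hrange : LinearMap.range (LF F) = LinearMap.range (Lm b) := by
    unfold LF
    rw [Finsupp.range_linearCombination, hFs]
  have hinj : ∀ m, LF F m = 0 → m = 0 := by
    intro m hm
    exact (linearIndependent_iff.1 hFl) m hm
  have he : LF F (Finsupp.single 0 1) = 1 := LF_e0 hF0
  have hone : (1 : H →L[ℂ] H) ∈ LinearMap.range (Lm b) := by
    rw [← hrange]; exact ⟨_, he⟩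
  let VA : Submodule ℂ (H →L[ℂ] H) := Submodule.span ℂ (insert 1 (Set.range (R b)))
  let VB : Submodule ℂ (H →L[ℂ] H) :=
    Submodule.span ℂ (insert 1 (Set.range (fun n => star (R b n))))
  have hVA : VA ≤ LinearMap.range (Lm b) := by
    apply Submodule.span_le.2
    rintro x (rfl | ⟨n, rfl⟩)
    · exact hone
    · exact R_mem_range b n
  have hVB : VB ≤ LinearMap.range (Lm b) := by
    apply Submodule.span_le.2
    rintro x (rfl | ⟨n, rfl⟩)
    · exact hone
    · exact starR_mem_range b n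
  have hmulA : ∀ n m, R b n * R b m ∈ VA := by
    intro n m
    rw [R_mul_R]
    exact Submodule.sub_mem _ (Submodule.add_mem _ (Submodule.subset_span (Or.inl rfl))
      (Submodule.subset_span (Or.inr ⟨m, rfl⟩))) (Submodule.subset_span (Or.inr ⟨n, rfl⟩))
  have hmulB : ∀ n m, star (R b n) * star (R b m) ∈ VB := by
    intro n m
    rw [← star_mul, R_mul_R, star_sub, star_add, star_one]
    exact Submodule.sub_mem _ (Submodule.add_mem _ (Submodule.subset_span (Or.inl rfl))
      (Submodule.subset_span (Or.inr ⟨n, rfl⟩))) (Submodule.subset_span (Or.inr ⟨m, rfl⟩))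
  let 𝒜 : Submodule ℂ (ℕ →₀ ℂ) := VA.comap (LF F)
  let ℬ : Submodule ℂ (ℕ →₀ ℂ) := VB.comap (LF F)
  have heA : Finsupp.single 0 1 ∈ 𝒜 := by
    show LF F _ ∈ VA
    rw [he]; exact Submodule.subset_span (Or.inl rfl)
  have heB : Finsupp.single 0 1 ∈ ℬ := by
    show LF F _ ∈ VB
    rw [he]; exact Submodule.subset_span (Or.inl rfl)
  have hA : ∀ A ∈ Set.range (R b), ∀ m ∈ 𝒜, ∃ m' ∈ 𝒜, LF F m' = A * LF F m := by
    intro A hAm m hm
    have h1 : A * LF F m ∈ VA := span_closed (R b) _ rfl hmulA hAm hm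
    have h2 : A * LF F m ∈ LinearMap.range (LF F) := by rw [hrange]; exact hVA h1
    obtain ⟨m', hm'⟩ := h2
    exact ⟨m', by show LF F m' ∈ VA; rw [hm']; exact h1, hm'⟩
  have hB : ∀ A ∈ Set.range (fun n => star (R b n)), ∀ m ∈ ℬ, ∃ m' ∈ ℬ,
      LF F m' = A * LF F m := by
    intro A hAm m hm
    have h1 : A * LF F m ∈ VB := span_closed (fun n => star (R b n)) _ rfl hmulB hAm hm
    have h2 : A * LF F m ∈ LinearMap.range (LF F) := by rw [hrange]; exact hVB h1
    obtain ⟨m', hm'⟩ := h2
    exact ⟨m', by show LF F m' ∈ VB; rw [hm']; exact h1, hm'⟩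
  have hAB : ∀ m, m ∈ 𝒜 → m ∈ ℬ → m 0 = 0 → m = 0 := by
    intro m hmA hmB hm0
    obtain ⟨a, β, hβ⟩ := mem_span_one (R b) hmA
    obtain ⟨a', β', hβ'⟩ := mem_span_one (fun n => star (R b n)) hmB
    have hβ0 : β = 0 := by
      ext n
      have hev : ∀ i, mc b (2 * n + 2) 1 (R b i) = if i = n then ep n else 0 := by
        intro i
        unfold R
        rw [map_add, map_smul, mc_S, mc_U, if_neg (by omega), zero_add]
        by_cases h : i = n
        · subst h
          rw [if_pos ⟨by decide, by ring⟩, if_pos rfl, smul_eq_mul, mul_one]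
        · have h1 : ¬ (¬ Even (1 : ℤ) ∧ (2 * (n : ℤ) + 2) = 1 + (2 * i + 1)) := by
            intro h2
            have h3 := h2.2
            omega
          rw [if_neg h1, if_neg h, smul_zero]
      have hev' : ∀ i, mc b (2 * n + 2) 1 (star (R b i)) = 0 := by
        intro i
        unfold R
        rw [star_add, star_smul, star_S, map_add, map_smul, mc_S, mc_starU, if_neg (by omega),
          zero_add, if_neg, smul_zero]
        rintro ⟨h1, _⟩
        exact h1 ⟨n + 1, by ring⟩
      have h1 : mc b (2 * n + 2) 1 (1 : H →L[ℂ] H) = 0 := by rw [mc_one, if_neg (by omega)]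
      have h2 := detect (R b) (mc b (2 * n + 2) 1) n (ep n) hev h1 a β
      have h3 := detect (fun n => star (R b n)) (mc b (2 * n + 2) 1) n 0 (by
        intro i; rw [hev']; simp) h1 a' β'
      rw [← hβ] at h2
      rw [← hβ', h2, mul_zero] at h3
      rcases mul_eq_zero.1 h3 with h | h
      · exact h
      · exact absurd h (ep_ne n)
    rw [hβ0, map_zero, add_zero] at hβ
    have h4 : m = a • Finsupp.single 0 1 := by
      have := hinj (m - a • Finsupp.single 0 1) (by rw [map_sub, map_smul, he, hβ, sub_self])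
      exact sub_eq_zero.1 this
    have h5 : a = 0 := by
      have := congrArg (fun f : ℕ →₀ ℂ => f 0) h4
      simp only [hm0] at this
      simpa using this.symm
    rw [h4, h5, zero_smul]
  refine ⟨Algebra.adjoin ℂ ((D u : Set (H →L[ℂ] H)) ∪ Set.range (R b)), ?_, ?_, ?_⟩
  all_goals
    have hstar : ∀ y ∈ Algebra.adjoin ℂ ((D u : Set (H →L[ℂ] H)) ∪ Set.range (R b)),
        star y ∈ Algebra.adjoin ℂ ((D u : Set (H →L[ℂ] H)) ∪
          Set.range (fun n => star (R b n))) := by
      intro y hy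
      refine Algebra.adjoin_induction ?_ ?_ ?_ ?_ hy
      · rintro z (hz | ⟨n, rfl⟩)
        · exact Algebra.subset_adjoin (Or.inl (star_mem_D hz))
        · exact Algebra.subset_adjoin (Or.inr ⟨n, rfl⟩)
      · intro r
        rw [Algebra.algebraMap_eq_smul_one, star_smul, star_one]
        exact Subalgebra.smul_mem _ (Subalgebra.one_mem _) _
      · intro a b _ _ ha hb
        rw [star_add]; exact Subalgebra.add_mem _ ha hb
      · intro a b _ _ ha hb
        rw [star_mul]; exact Subalgebra.mul_mem _ hb ha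
    have hset : diag (Algebra.adjoin ℂ ((D u : Set (H →L[ℂ] H)) ∪ Set.range (R b))) =
        (D u : Set (H →L[ℂ] H)) := by
      ext x
      constructor
      · rintro ⟨h1, h2⟩
        have h3 := hstar _ h2
        rw [star_star] at h3
        exact mem_D_of_mem_both' hG hF0 heA heB hA hB hAB h1 h3
      · intro hx
        exact ⟨Algebra.subset_adjoin (Or.inl hx), Algebra.subset_adjoin (Or.inl (star_mem_D hx))⟩
  · rw [hset]; exact (D_masa u).symm
  · intro n; exact Algebra.subset_adjoin (Or.inr ⟨n, rfl⟩)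
  · rw [hset]
    intro hS
    have h1 : S b ∈ LinearMap.range (LF F) := by
      rw [hrange]
      exact ⟨Finsupp.single 1 1, by
        unfold Lm; rw [Finsupp.linearCombination_single, Lt_one, one_smul]⟩
    obtain ⟨m, hm⟩ := h1
    have h2 : LF F (m - m 0 • Finsupp.single 0 1) = S b - m 0 • 1 := by
      rw [map_sub, map_smul, he, hm]
    have h3 : S b - m 0 • (1 : H →L[ℂ] H) = 0 := by
      rw [← h2]
      apply letter_mem_D hG
      · simp
      · rw [h2]
        exact (D u).sub_mem hS ((D u).smul_mem (D u).one_mem _)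
    have h4 : mc b 0 0 (S b) = m 0 := by
      rw [sub_eq_zero.1 h3, map_smul, mc_one]; simp
    have h5 : mc b 1 1 (S b) = m 0 := by
      rw [sub_eq_zero.1 h3, map_smul, mc_one]; simp
    rw [mc_S] at h4 h5
    simp only [if_true, sg] at h4 h5
    rw [if_pos (by decide)] at h4
    rw [if_neg (by decide)] at h5
    rw [← h4] at h5
    norm_num at h5

lemma sep_of_basis (b : HilbertBasis ℤ ℂ H) : TopologicalSpace.SeparableSpace H := by
  have h1 : (Submodule.span ℂ (Set.range b)).topologicalClosure = ⊤ := b.dense_span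
  have h2 : TopologicalSpace.IsSeparable (Set.range b) := (Set.countable_range b).isSeparable
  have h3 : TopologicalSpace.IsSeparable ((Submodule.span ℂ (Set.range b) : Submodule ℂ H) : Set H) :=
    TopologicalSpace.IsSeparable.span h2
  have h4 := h3.closure
  rw [← Submodule.topologicalClosure_coe, h1] at h4
  exact TopologicalSpace.isSeparable_univ_iff.1 h4

/-- A maximal triangular algebra which is not norm closed. -/
theorem not_closed [TopologicalSpace.SeparableSpace H] (b : HilbertBasis ℤ ℂ H) :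
    ∃ T : Subalgebra ℂ (H →L[ℂ] H), Set.centralizer (diag T) = diag T ∧
      (∀ T' : Subalgebra ℂ (H →L[ℂ] H), T ≤ T' → Set.centralizer (diag T') = diag T' → T' = T) ∧
      ¬ IsClosed (T : Set (H →L[ℂ] H)) := by
  obtain ⟨T0, h0, hR, hS⟩ := exists_tri b
  obtain ⟨T, hT0, hd, hmax⟩ := exists_maximal T0 h0
  refine ⟨T, by rw [hd, h0], hmax, ?_⟩
  intro hcl
  apply hS
  rw [← hd]
  have h1 : S b ∈ (T : Set (H →L[ℂ] H)) :=
    hcl.mem_of_tendsto (R_tendsto b) (Eventually.of_forall fun n => hT0 (hR n))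
  exact ⟨h1, by rw [star_S]; exact h1⟩

end H382Tri
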